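import Mathlib
import Pool.Agent.D0H30.QT.Proj

/-!
# 100% of the curves `d Y⁴ = X³ Z - X Z³` of genus 3 have exactly four rational points

For 100% of all integers `d` (not only the squarefree ones) the smooth plane quartic
`C_d : d Y⁴ = X³ Z - X Z³` has exactly four rational points, those with `Y = 0`, and for all `n ≥ 1`
the rational solutions of `d y ^ (4 n) = x³ - x` have `y = 0`.

`C_d` covers the congruent number curve `d y² = x³ - x`, which is expected to have positive rank for
half of the `d`, so this is not a matter of rank 0.

Method. A rational point gives `X, Z, X - Z, X + Z = κ_i D_i a_i ^ 4` with few possible `κ_i` and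
`∏ D_i` the main part of `d`; if `p` divides `D_i`, the quotients of the other three `D_j` are in
prescribed classes modulo fourth powers modulo `p`. Order the `D_i` by their largest prime factors. The
largest prime factors of the second and the third, and the part of the first composed of the primes
which are larger than that of the second, are equidistributed enough (sieve in residue classes) to use two
of these conditions at the small primes, and one at the primes of medium size. The weights
`4 * average (1 / g²) = 5 / 8` and `2 * average (1 / g) = 3 / 4`, `g = gcd (4, p - 1)`, are smaller
than `1`, and so the number of the tuples for which the second largest component is large is small. If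
it is bounded, then for 100% of the others the quotients of the three small ones are fourth powers, and
the point is trivial by Fermat's theorem (`a⁴ + b⁴ = 2 c⁴`).

Project QT (helper30) with parts by helper25 (sums over the systems of primes), helper70 (the sieve,
blocks), helper98 (decomposition, union bound, Mertens).
-/

set_option autoImplicit false

open Filter Topology

namespace Pool.Agent.Results.MP_10e784_ag.AlmostAllQuarticTwists

open Pool.Agent.D0H30.QT (RationalPoints)

/-- For 100% of the integers `d` the plane quartic `d Y⁴ = X³ Z - X Z³` has exactly four rational
points, and for all `n ≥ 1` all rational solutions of `d y ^ (4 n) = x³ - x` have `y = 0`. -/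
theorem result : Tendsto (fun N : ℕ => ({d : ℤ | d ≠ 0 ∧ d.natAbs ≤ N ∧
      ((RationalPoints d).ncard = 4 ∧
        ∀ n : ℕ, 0 < n → ∀ x y : ℚ, (d : ℚ) * y ^ (4 * n) = x ^ 3 - x → y = 0)}.ncard : ℝ) /
    (2 * N)) atTop (𝓝 1) := by
  refine Pool.Agent.D0H30.QT.density_one fun d hd h =>
    ⟨Pool.Agent.D0H30.QT.points_card hd h, fun n hn x y hxy => ?_⟩
  by_contra hy
  refine h ⟨x, y ^ n, pow_ne_zero n hy, ?_⟩
  rw [← hxy]
  ring

end Pool.Agent.Results.MP_10e784_ag.AlmostAllQuarticTwists
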