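import Mathlib
import Pool.Agent.D0H69.UC.Lof
import Pool.Agent.D0H69.L0F.End

/-!
# A bound for the number of rational points, independent of the genus and of the field, for the curves
# which cover a cubic twist of `y² + y = x³` over a Kummer extension of arbitrary degree

`K = ℚ(√-3)`, `E_D : y² + D y = x³`; `D` runs through all the cube-free elements of `𝓞 K` that do not
divide `3`, ordered by the norm: all the cubic twists of `E_1`, up to finitely many, each for `D`, `-D`.
`F` is any number field generated over `K` by cube roots of elements of `K`, of any degree `1, 3, 9, ...`.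

`FewPoints F D`: the group `E_D(F)` has three elements, and for every subfield `k` of `F` (for instance
`k = ℚ` or `k = F`), for every curve `C` over `k`, of any genus, and every non-constant morphism
`C_F → E_D` over `F` of degree `d`, the curve `C` has at most `3 d` rational points over `k`.  A morphism
`C_F → E_D` is the same as a morphism of `C` to the abelian variety `Res_{F/k} E_D`.

Theorem.  Let `c = ∏_{i ≥ 0} (1 - 3^{-(2 i + 1)}) = 0.6390...`, let `F_1, ..., F_n` be fields as above and
`u_1, ..., u_n` elements of `K` different from `0`.  For every `x < c ^ ([F_1 : K] + ... + [F_n : K])` at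
least the proportion `x` of all the `D` of norm at most `X` has the property that `FewPoints F_i (u_i D)`
holds for all `i` simultaneously, for all large `X`.  The same is true in each of the classes of the `D`
divisible exactly `0`, `1`, `2` times by `√-3`.  (For `F = K`, `u = 1` also in the class `D² = 1` modulo
`(√-3)³`.)

Criterion: let `F = K(∛d_1, ..., ∛d_n)`.  If for all the products `d = ∏ d_i ^ t_i`, `0 ≤ t_i ≤ 2`, the group
`E_{d D}(K)` is finite and `d D` is neither a cube nor twice a cube in `K`, then `FewPoints F D` holds.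

Example: for `D = r + s ω` the curve `x³ = y² - z² + r y - s z`, `2 y z - z² + s y + (r - s) z = 0` over
`ℚ` (of degree `2` over `E_D`) has only the points `(0, 0, 0)` and `(0, -r, -s)` over all the subfields of
`F` which do not contain `ω` (for instance `ℚ(∛m)` for `F = K(∛m)`), if `FewPoints F D` holds.

Proof: the joint law of the `3`-power Selmer groups of the twists `E_{u D}` for finitely many `u` (see
`Pool/Agent/D0H69/JT/Multi.lean`) shows that the groups `E_{u d D}(K)` are all finite.  By the `2`-adic
dynamics of the duplication over `K` they have three elements, if `u d D` is neither a cube nor twice a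
cube.  By the decomposition under `Gal(F/K)` then `√-3 ^ m` kills `E_{u D}(F)` for some `m`; the points of
order three with `x ≠ 0` would give a cube root of `u D` in `F`, hence one of some `u d D` in `K`.  A place
of degree one of the function field of `C` extends to an `F`-rational place of that of `C_F`, which lies
over one of the three points.
-/

set_option autoImplicit false

namespace Pool.Agent.Results.MP_10e784_ag.CoversOverKummerExtensions

open NumberField Filter
open scoped Classical

/-- `F` is the function field of a curve over `k` (a function field of one variable over `k`). -/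
def IsCurve (k F : Type) [Field k] [Field F] [Algebra k F] : Prop :=
  ∃ x : F, Transcendental k x ∧ FiniteDimensional (IntermediateField.adjoin k {x}) F

/-- The rational points over `k` of the smooth projective curve with the function field `F`: the
valuation rings of `F` over `k` with the residue field `k` (as in the frozen statement). -/
def Points (k F : Type) [Field k] [Field F] [Algebra k F] : Set (ValuationSubring F) :=
  {R | (∀ c : k, algebraMap k F c ∈ R) ∧ R ≠ ⊤ ∧
    ∀ r ∈ R, ∃ c : k, R.valuation (r - algebraMap k F c) < 1}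

/-- `y² + D y = x³` has only the points with `x = 0` over `L`, and for every subfield `k` of `L` every curve
over `k` (with the function field `F₀`) which has a morphism of degree `d` to it over `L` has at most
`3 d` rational points over `k`.  The morphism is given by functions `x`, `y` in the function field `F` over
`L` (the compositum of `F₀` and `L` over `k`), and its degree is `[F : L(x, y)]`. -/
def FewPoints (L : Type) [Field L] (D : L) : Prop :=
  (∀ x y : L, y ^ 2 + D * y = x ^ 3 → x = 0) ∧
  ∀ (k F₀ F : Type) [Field k] [Algebra k L] [Field F₀] [Algebra k F₀] [Field F] [Algebra F₀ F]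
    [Algebra L F], (∀ a : k, algebraMap F₀ F (algebraMap k F₀ a) = algebraMap L F (algebraMap k L a)) →
    IsCurve L F → IntermediateField.adjoin F₀ (Set.range (algebraMap L F)) = ⊤ →
    ∀ x y : F, Transcendental L x → y ^ 2 + algebraMap L F D * y = x ^ 3 →
      (Points k F₀).Finite ∧
        (Points k F₀).ncard ≤ 3 * Module.finrank (IntermediateField.adjoin L {x, y}) F

/-- `F` is generated over `K` by cube roots of elements of `K`. -/
def ByCubeRoots (K F : Type) [Field K] [Field F] [Algebra K F] : Prop :=
  ∃ S : Set F, (∀ x ∈ S, ∃ w : K, x ^ 3 = algebraMap K F w) ∧ IntermediateField.adjoin K S = ⊤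

/-- The constant `∏_{i ≥ 0} (1 - 3^{-(2 i + 1)}) = 0.6390...`. -/
noncomputable def c : ℝ := ∏' i : ℕ, (1 - (1 / 3 : ℝ) ^ (2 * i + 1))

section

variable {K : Type} [Field K] [NumberField K]

/-- `D` is cube-free and does not divide `3`. -/
def InFamily (D : 𝓞 K) : Prop := ¬ D ∣ 3 ∧ ∀ x : 𝓞 K, x ^ 3 ∣ D → IsUnit x

/-- `D²` is `1` modulo `(√-3)³`. -/
def SquareNearOne (D : 𝓞 K) : Prop := ∃ l : 𝓞 K, l ^ 2 = -3 ∧ l ^ 3 ∣ D ^ 2 - 1

/-- `D` is divisible exactly `a` times by `√-3`. -/
def ExactlyDivisible (a : ℕ) (D : 𝓞 K) : Prop :=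
  ∃ l : 𝓞 K, l ^ 2 = -3 ∧ l ^ a ∣ D ∧ ¬ l ^ (a + 1) ∣ D

/-- For all large `X` at least the proportion `x` of the `D` of norm at most `X` in the family with the
property `P` has the property `Q`. -/
def AtLeast (x : ℝ) (P Q : 𝓞 K → Prop) : Prop :=
  ∀ᶠ X : ℕ in atTop, x * ({D : 𝓞 K | Algebra.norm ℤ D ≤ X ∧ InFamily D ∧ P D}.ncard : ℝ) ≤
    ({D : 𝓞 K | Algebra.norm ℤ D ≤ X ∧ (InFamily D ∧ P D) ∧ Q D}.ncard : ℝ)

end

/-- For large `X` there are at least `b X` elements of norm at most `X` in the family, `b > 0`. -/
def Growth (K : Type) [Field K] [NumberField K] : Prop :=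
  ∃ b : ℝ, 0 < b ∧ ∃ X₀ : ℕ, ∀ X : ℕ, X₀ ≤ X →
    b * X ≤ ({D : 𝓞 K | Algebra.norm ℤ D ≤ X ∧ InFamily D}.ncard : ℝ)

/-- The main statement: several fields and twists. -/
def Proportion (K : Type) [Field K] [NumberField K] : Prop :=
  ∀ (ι : Type) [Fintype ι] (F : ι → Type) [∀ i, Field (F i)] [∀ i, NumberField (F i)]
    [∀ i, Algebra K (F i)] (u : ι → K), (∀ i, ByCubeRoots K (F i)) → (∀ i, u i ≠ 0) →
    ∀ x : ℝ, x < c ^ ∑ i, Module.finrank K (F i) →
      AtLeast (K := K) x (fun _ => True)
        (fun D => ∀ i, FewPoints (F i) (algebraMap K (F i) (u i * (D : K)))) ∧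
      ∀ a : ℕ, a < 3 → AtLeast (K := K) x (ExactlyDivisible a)
        (fun D => ∀ i, FewPoints (F i) (algebraMap K (F i) (u i * (D : K))))

/-- The criterion. -/
def Criterion (K : Type) [Field K] : Prop :=
  ∀ (F : Type) [Field F] [NumberField F] [Algebra K F] (n : ℕ) (d : Fin n → K) (z : Fin n → F) (D : K),
    (∀ i, z i ^ 3 = algebraMap K F (d i)) → IntermediateField.adjoin K (Set.range z) = ⊤ →
    (∀ i, d i ≠ 0) → D ≠ 0 →
    (∀ t : Fin n → ZMod 3,
      Finite (⟨0, 0, D * ∏ i, d i ^ (t i).val, 0, 0⟩ : WeierstrassCurve K).toAffine.Point ∧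
      ∀ r : K, r ^ 3 ≠ D * ∏ i, d i ^ (t i).val ∧ 2 * r ^ 3 ≠ D * ∏ i, d i ^ (t i).val) →
    FewPoints F (algebraMap K F D)

/-- The example: the curve over the subfields of `F` which do not contain `ω`. -/
def Example (K : Type) [Field K] : Prop :=
  ∀ (F : Type) [Field F] [Algebra K F] (ω : K), ω ^ 2 + ω + 1 = 0 → ∀ r s : ℤ,
    FewPoints F (algebraMap K F (r + s * ω)) →
    ∀ (k : Type) [Field k] [Algebra k F], (∀ t : k, t ^ 2 + t + 1 ≠ 0) →
      {p : k × k × k | p.1 ^ 3 = p.2.1 ^ 2 - p.2.2 ^ 2 + r * p.2.1 - s * p.2.2 ∧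
        2 * p.2.1 * p.2.2 - p.2.2 ^ 2 + s * p.2.1 + (r - s) * p.2.2 = 0} =
      {((0 : k), (0 : k), (0 : k)), ((0 : k), (-r : k), (-s : k))}

section proof

open Pool.Agent.D0H69.UC

theorem few_of {L : Type} [Field L] [NumberField L] {D : L} (hD : D ≠ 0)
    (hpt : ∀ x y : L, y ^ 2 + D * y = x ^ 3 → x = 0) : FewPoints L D := by
  refine ⟨hpt, ?_⟩
  intro k F₀ F _ _ _ _ _ _ _ hc hC hF x y hx hxy
  letI : Algebra k F := ((algebraMap F₀ F).comp (algebraMap k F₀)).toAlgebra
  haveI : IsScalarTower k F₀ F := IsScalarTower.of_algebraMap_eq fun _ => rfl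
  haveI : IsScalarTower k L F := IsScalarTower.of_algebraMap_eq fun a => hc a
  haveI : CharZero k := (algebraMap k L).charZero
  haveI : FiniteDimensional k L := Module.Finite.of_restrictScalars_finite ℚ k L
  exact count_kD (k := k) hF hD hpt hC hx hxy

theorem example_k {K F : Type} [Field K] [Field F] [Algebra K F] {ω : K} (hω : ω ^ 2 + ω + 1 = 0)
    (r s : ℤ) (h : ∀ x y : F, y ^ 2 + algebraMap K F (r + s * ω) * y = x ^ 3 → x = 0)
    (k : Type) [Field k] [Algebra k F] (hk : ∀ t : k, t ^ 2 + t + 1 ≠ 0) :
    {p : k × k × k | p.1 ^ 3 = p.2.1 ^ 2 - p.2.2 ^ 2 + r * p.2.1 - s * p.2.2 ∧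
        2 * p.2.1 * p.2.2 - p.2.2 ^ 2 + s * p.2.1 + (r - s) * p.2.2 = 0} =
      {((0 : k), (0 : k), (0 : k)), ((0 : k), (-r : k), (-s : k))} := by
  set z : F := algebraMap K F ω with hz
  have hz0 : z ^ 2 + z + 1 = 0 := by
    rw [hz, ← map_pow, ← map_add, ← map_one (algebraMap K F), ← map_add, hω, map_zero]
  have hD : algebraMap K F (r + s * ω) = r + s * z := by
    rw [map_add, map_mul, map_intCast, map_intCast]
  rw [hD] at h
  have hcoord : ∀ a b c d : k, algebraMap k F a + algebraMap k F b * z =
      algebraMap k F c + algebraMap k F d * z → a = c ∧ b = d := by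
    intro a b c d hh
    by_cases hbd : b = d
    · subst hbd
      exact ⟨(algebraMap k F).injective (add_right_cancel hh), rfl⟩
    · exfalso
      have h0 : b - d ≠ 0 := sub_ne_zero.2 hbd
      have h0' : algebraMap k F (b - d) ≠ 0 := (map_ne_zero _).2 h0
      have h1 : z = algebraMap k F ((c - a) / (b - d)) := by
        rw [map_div₀, eq_div_iff h0', map_sub, map_sub]
        linear_combination hh
      apply hk ((c - a) / (b - d))
      apply (algebraMap k F).injective
      rw [map_add, map_add, map_pow, ← h1, map_one, map_zero, hz0]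
  ext ⟨x, y, w⟩
  simp only [Set.mem_ofPred_eq, Set.mem_insert_iff, Set.mem_singleton_iff, Prod.mk.injEq]
  constructor
  · rintro ⟨h1, h2⟩
    have h1' := congrArg (algebraMap k F) h1
    have h2' := congrArg (algebraMap k F) h2
    simp only [map_add, map_sub, map_mul, map_pow, map_intCast, map_ofNat, map_zero] at h1' h2'
    have e : (algebraMap k F y + algebraMap k F w * z) ^ 2 +
        (r + s * z) * (algebraMap k F y + algebraMap k F w * z) = algebraMap k F x ^ 3 := by
      rw [h1']
      linear_combination z * h2' + (algebraMap k F w ^ 2 + s * algebraMap k F w) * hz0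
    have hx := h _ _ e
    rw [hx, zero_pow three_ne_zero] at e
    have hx0 : x = 0 := (map_eq_zero _).1 hx
    have e2 : (algebraMap k F y + algebraMap k F w * z) *
        ((algebraMap k F y + algebraMap k F w * z) + (r + s * z)) = 0 := by linear_combination e
    rcases mul_eq_zero.1 e2 with e3 | e3
    · left
      have := hcoord y w 0 0 (by rw [e3, map_zero]; ring)
      exact ⟨hx0, this.1, this.2⟩
    · right
      have := hcoord y w (-r) (-s) (by
        rw [map_neg, map_neg, map_intCast, map_intCast]
        linear_combination e3)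
      exact ⟨hx0, this.1, this.2⟩
  · rintro (⟨rfl, rfl, rfl⟩ | ⟨rfl, rfl, rfl⟩)
    · constructor <;> ring
    · constructor <;> ring

theorem main_thm (K : Type) [Field K] [NumberField K] [IsCyclotomicExtension {3} ℚ K] :
    Growth K ∧ Proportion K ∧
    (∀ x : ℝ, x < c → AtLeast (K := K) x SquareNearOne (fun D => FewPoints K (D : K))) ∧
    Criterion K ∧ Example K ∧ (0.639 : ℝ) < c := by
  obtain ⟨h1, -, h3, h4, h5, h6⟩ := Pool.Agent.D0H69.L0F.finalAll K
  refine ⟨h1, ?_, ?_, ?_, ?_, h6⟩
  · intro ι _ F _ _ _ u hF hu x hx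
    have key : ∀ {P : 𝓞 K → Prop}, Pool.Agent.D0H69.JTL.Cls P → AtLeast (K := K) x P
        (fun D => ∀ i, FewPoints (F i) (algebraMap K (F i) (u i * (D : K)))) := by
      intro P hP
      filter_upwards [low_few (K := K) hF hu hP hx] with X hX
      refine hX.trans ?_
      have h9 := Set.ncard_le_ncard (s := {D : 𝓞 K | Algebra.norm ℤ D ≤ X ∧
          (Pool.Agent.D0H10.KH.FamH D ∧ P D) ∧
          ∀ i, ∀ Z Y : F i, Y ^ 2 + algebraMap K (F i) (u i * D) * Y = Z ^ 3 → Z = 0})
        (t := {D : 𝓞 K | Algebra.norm ℤ D ≤ X ∧ (InFamily D ∧ P D) ∧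
          ∀ i, FewPoints (F i) (algebraMap K (F i) (u i * (D : K)))})
        (fun D hD => ⟨hD.1, hD.2.1, fun i => few_of ((map_ne_zero _).2
          (mul_ne_zero (hu i) (Pool.Agent.D0H69.JTL.famH_ne' hD.2.1.1))) (hD.2.2 i)⟩)
        ((fin_norm X).subset fun D hD => hD.1)
      exact_mod_cast h9
    exact ⟨key (Or.inl rfl), fun a ha => key (Or.inr ⟨a, ha, rfl⟩)⟩
  · intro x hx
    refine lower (P := fun D => InFamily D ∧ SquareNearOne D) (Q := Pool.Agent.Y696.CTK.Tri) ?_ _
      (two_fin (K := K) (v := 1) one_ne_zero) (fun D hD ht h2 => ?_) hx ?_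
    · exact (inf_class (K := K) 0 (by norm_num)).mono fun D hD => ⟨hD.1, hD.2.2 rfl⟩
    · have hD0 := Pool.Agent.D0H69.JTL.famH_ne' (K := K) hD.1
      refine few_of hD0 (k_pts hD0 (fam_cube hD.1) (fun r hr => h2 ⟨hD.1, r, ?_⟩) ht.1)
      rw [one_mul]
      exact hr
    · simp only [and_assoc]
      exact h5
  · intro F _ _ _ n d z D hz hgen hd hD h
    refine few_of ((map_ne_zero _).2 hD) (fewF hd hz ?_ hD h)
    intro S hS hzS
    let T : IntermediateField K F := { S with algebraMap_mem' := hS }
    have hT : T = ⊤ := by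
      rw [eq_top_iff, ← hgen, IntermediateField.adjoin_le_iff]
      rintro _ ⟨i, rfl⟩
      exact hzS i
    rw [eq_top_iff]
    rintro y -
    have hy : y ∈ T := by rw [hT]; trivial
    exact hy
  · intro F _ _ ω hω r s h k _ _ hk
    exact example_k hω r s h.1 k hk

end proof

/-- **Rational points on the covers of the cubic twists over Kummer extensions.** -/
theorem result (K : Type) [Field K] [NumberField K] [IsCyclotomicExtension {3} ℚ K] :
    Growth K ∧ Proportion K ∧
    (∀ x : ℝ, x < c → AtLeast (K := K) x SquareNearOne (fun D => FewPoints K (D : K))) ∧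
    Criterion K ∧ Example K ∧ (0.639 : ℝ) < c := main_thm K

end Pool.Agent.Results.MP_10e784_ag.CoversOverKummerExtensions
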