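import Pool.Agent.D0H10.Q4.AllQ
import Pool.Agent.D0H76.BKR.Rtl
import Pool.Agent.D0H76.BKR.Cov

/-!
# A bound for the number of rational points, independent of the genus and of the field, for the curves
# which cover a quartic twist over a multiquadratic field of arbitrary degree

`m ≥ 1` is squarefree with all prime factors `≡ 1 mod 4`, `K = ℚ(√p : p ∣ m)`, a field of degree
`2 ^ ω(m)`, and `E : y² = x³ + 2 m d² x` for a divisor `d` of `m`.

`FewPoints K (m d²)`: the equation `y² = x³ + 2 m d² x` has only the solution `(0, 0)` in `K`, and for every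
subfield `k` of `K` (for instance `k = ℚ`), for every curve `C` over `k`, of any genus, and every
non-constant morphism `C_K → E` over `K` of degree `δ`, the curve `C` has at most `2 δ` rational points
over `k`.  A morphism `C_K → E` is the same as a morphism of `C` to the abelian variety `Res_{K/k} E`, which
is isogenous to the product of the twists of `E` by the characters of `Gal(K/k)`.

Theorem.  If the matrix `mat m` over the field with two elements is not singular, then
`FewPoints K (m d²)` holds for all the divisors `d` of `m`.  The matrix is not singular for exactly the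
proportion `∏_{i ≥ 0} (1 - 2^{-(2i+1)}) = 0.4194...` of all these `m`, ordered by size.

So there are infinitely many fields `K`, of unbounded degree, over which the number of points of all the
curves of all genera covering `E` is bounded in terms of the degree of the covering only, although the
`2 ^ ω(m)` quadratic twists of `E` over `ℚ` which become isomorphic to `E` over `K` could contribute
points over `K`.

Proof: the 2-descent over `ℚ` for the curves `y² = x³ + 2 m d² x` leads to the same matrix for all `d`
(`Pool/Agent/D0H76/BKR/Dsc.lean`), so that all the quadratic twists of `E` by the divisors of `m` have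
exactly two rational points.  By the decomposition under `Gal(K/ℚ)` the group `E(K)` is killed by
`2 ^ (ω(m) + 1)`; as `-2 m d²` and `2 m d²` are not squares in `K`, it has two elements.  A place of degree one
of the function field of `C` extends to a `K`-rational place of that of `C_K`, which lies over one of the
two points.  The law of the matrix is that of `MP_4a9ea6_nt.TwoPartQuarticTwists`.
-/

set_option autoImplicit false

open NumberField

namespace Pool.Agent.Results.MP_10e784_ag.CoversOverMultiquadraticFields

/-- `F` is the function field of a curve over `k` (a function field of one variable over `k`). -/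
def IsCurve (k F : Type) [Field k] [Field F] [Algebra k F] : Prop :=
  ∃ x : F, Transcendental k x ∧ FiniteDimensional (IntermediateField.adjoin k {x}) F

/-- The rational points over `k` of the smooth projective curve with the function field `F`: the
valuation rings of `F` over `k` with the residue field `k` (as in the frozen statement). -/
def Points (k F : Type) [Field k] [Field F] [Algebra k F] : Set (ValuationSubring F) :=
  {R | (∀ c : k, algebraMap k F c ∈ R) ∧ R ≠ ⊤ ∧
    ∀ r ∈ R, ∃ c : k, R.valuation (r - algebraMap k F c) < 1}

/-- `m` is squarefree and all its prime factors are `≡ 1 mod 4`. -/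
def Adm (m : ℕ) : Prop := Squarefree m ∧ ∀ p ∈ m.primeFactors, p % 4 = 1

open Classical in
/-- `1` if `a` is not a square modulo `p`, and `0` if it is. -/
noncomputable def nonsq (p a : ℕ) : ZMod 2 := if IsSquare (a : ZMod p) then 0 else 1

/-- The matrix over the field with two elements, with rows and columns indexed by the prime factors of
`m`: the entry at `(p, q)` is `nonsq p q` for `p ≠ q`, and the entry at `(p, p)` is the sum of
`nonsq p 2` and of the `nonsq p l` for all the prime factors `l ≠ p` of `m`. -/
noncomputable def mat (m : ℕ) : Matrix m.primeFactors m.primeFactors (ZMod 2) :=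
  Matrix.of fun p q =>
    if p = q then nonsq p 2 + ∑ l ∈ m.primeFactors.erase p, nonsq p l else nonsq p q

/-- `K = ℚ(√p : p ∣ m)`. -/
structure IsMq (m : ℕ) (K : Type) [Field K] [NumberField K] : Prop where
  ex : ∀ p ∈ m.primeFactors, ∃ x : K, x ^ 2 = (p : K)
  gen : IntermediateField.adjoin ℚ {x : K | ∃ p ∈ m.primeFactors, x ^ 2 = (p : K)} = ⊤

/-- `y² = x³ + 2 c x` has only the point `(0, 0)` over `K`, and for every subfield `k` of `K` every curve
over `k` (with the function field `F₀`) which has a morphism of degree `δ` to it over `K` has at most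
`2 δ` rational points over `k`.  The morphism is given by functions `x`, `y` in the function field `F` over
`K` (the compositum of `F₀` and `K` over `k`), and its degree is `[F : K(x, y)]`. -/
def FewPoints (K : Type) [Field K] (c : ℕ) : Prop :=
  (∀ x y : K, y ^ 2 = x ^ 3 + 2 * (c : K) * x → x = 0 ∧ y = 0) ∧
  ∀ (k F₀ F : Type) [Field k] [Algebra k K] [Field F₀] [Algebra k F₀] [Field F] [Algebra F₀ F]
    [Algebra K F], (∀ a : k, algebraMap F₀ F (algebraMap k F₀ a) = algebraMap K F (algebraMap k K a)) →
    IsCurve K F → IntermediateField.adjoin F₀ (Set.range (algebraMap K F)) = ⊤ →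
    ∀ x y : F, Transcendental K x → y ^ 2 = x ^ 3 + 2 * (c : F) * x →
      (Points k F₀).Finite ∧
        (Points k F₀).ncard ≤ 2 * Module.finrank (IntermediateField.adjoin K {x, y}) F

section proof

open Pool.Agent.D0H76.BKR (Sup only_zero count_k)

lemma mq {m : ℕ} {K : Type} [Field K] [NumberField K] (h : IsMq m K) :
    Pool.Agent.D0H76.BKR.IsMq m K := ⟨h.ex, h.gen⟩

theorem few {m : ℕ} (h : Adm m) (hd : (mat m).det ≠ 0) {K : Type} [Field K] [NumberField K]
    (hK : IsMq m K) {d : ℕ} (hdm : d ∣ m) : FewPoints K (m * d ^ 2) := by
  have hs : Sup m d := Sup.of_dvd h.1.ne_zero hdm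
  have hz : ∀ x y : K, y ^ 2 = x ^ 3 + 2 * ((m * d ^ 2 : ℕ) : K) * x → x = 0 :=
    only_zero h hd (mq hK) hs
  have hD : (2 : K) * ((m * d ^ 2 : ℕ) : K) ≠ 0 :=
    mul_ne_zero two_ne_zero (Nat.cast_ne_zero.2 (mul_ne_zero h.1.ne_zero (pow_ne_zero 2 hs.1)))
  refine ⟨fun x y hxy => ?_, ?_⟩
  · have hx := hz x y hxy
    refine ⟨hx, ?_⟩
    rw [hx, zero_pow three_ne_zero, mul_zero, add_zero] at hxy
    exact (pow_eq_zero_iff two_ne_zero).1 hxy
  · intro k F₀ F _ _ _ _ _ _ _ hc hC hF x y hx hxy
    letI : Algebra k F := ((algebraMap F₀ F).comp (algebraMap k F₀)).toAlgebra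
    haveI : IsScalarTower k F₀ F := IsScalarTower.of_algebraMap_eq fun _ => rfl
    haveI : IsScalarTower k K F := IsScalarTower.of_algebraMap_eq fun a => hc a
    haveI : CharZero k := (algebraMap k K).charZero
    haveI : FiniteDimensional k K := Module.Finite.of_restrictScalars_finite ℚ k K
    refine count_k (k := k) hF hD hz hC hx ?_
    rw [map_mul, map_ofNat, map_natCast]
    exact hxy

end proof

open Classical in
/-- **Rational points on the covers of the quartic twists over multiquadratic fields.** -/
theorem result :
    (∀ m : ℕ, Adm m → (mat m).det ≠ 0 → ∀ (K : Type) [Field K] [NumberField K], IsMq m K →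
      Module.finrank ℚ K = 2 ^ m.primeFactors.card ∧ ∀ d : ℕ, d ∣ m → FewPoints K (m * d ^ 2)) ∧
    Filter.Tendsto (fun X : ℕ =>
        (((Finset.Icc 1 X).filter fun m => Adm m ∧ (mat m).det ≠ 0).card : ℝ) /
        (((Finset.Icc 1 X).filter fun m => Adm m).card : ℝ)) Filter.atTop
      (nhds (∏' i : ℕ, (1 - (1 / 2 : ℝ) ^ (2 * i + 1)))) := by
  refine ⟨fun m h hd K _ _ hK => ⟨(mq hK).deg, fun d hdm => few h hd hK hdm⟩, ?_⟩
  refine Pool.Agent.D0H10.Q4.denQ.congr fun X => ?_
  exact congrArg₂ (fun a b : ℕ => (a : ℝ) / (b : ℝ))
    (congrArg Finset.card (Finset.ext fun m => by rw [Finset.mem_filter, Finset.mem_filter]; rfl)) rfl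

end Pool.Agent.Results.MP_10e784_ag.CoversOverMultiquadraticFields
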