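import Mathlib
import Pool.Agent.D0H59.UB.Hyp

/-!
# MP_10e784_ag: a uniform bound for the number of points with sparse coordinates on all curves

Let `K` be a field of characteristic zero, for example `ℚ`, and `G` a finitely generated subgroup of the
multiplicative group of `K`, for example all `S`-units of `ℚ` for a finite set `S` of primes. We consider the
numbers which are sums of at most `N` elements of `G`, for example all integers with at most `N` nonzero
digits in a given base.

(1) For all `n`, `d`, `N` there is `B` such that for EVERY projective variety `X ⊆ ℙ^n` over `K`, given by forms of
degree at most `d` (of any number, with arbitrary coefficients), all but at most `B` of the points of `X` which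
have homogeneous coordinates that are sums of at most `N` elements of `G` lie on nonconstant rational curves
over `K` contained in `X`. The bound does not depend on `X`. In particular, if `X` contains no rational curve,
then `X` has at most `B` such points. This applies to all curves of genus `g ≥ 1`; all curves of genus `g ≥ 2` have
models with `n` and `d` bounded in terms of `g`.

(2) For all `d ≥ 3` and `N` there is `B` such that for EVERY polynomial `f` over `K` of degree `d` without multiple
roots at most `B` points `(x, y)` of the curve `y ^ 2 = f x` are of the form `(a / c, b / c)` with sums `a`, `b`, `c` of
at most `N` elements of `G`. For `d = 2 g + 1` and `d = 2 g + 2` these are all the hyperelliptic curves of genus `g`.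

So the uniformity conjecture of Caporaso, Harris and Mazur holds for the rational points which are sparse in
this sense, and (1) is a uniform version of Lang's conjecture for these points. The conjecture predicts a bound
for all rational points of the curves of genus `g ≥ 2`.

The proof. If there is no bound, take a sequence of varieties `X_m` with more than `m` points of the given kind
not on rational curves, and an ultrafilter. The points are given by sequences in `G`, and sequences in `G` which
are pairwise not proportional are linearly independent (this is the theorem on unit equations, starting library
`K1H77.PA`). Choose finitely many of the points, `P_i`, such that the vectors of the values of the monomials of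
degree `d` at the other points are linear combinations of those for the `P_i`. If the quotient of two terms of
the coordinates of `P` is not in the group generated by the terms of the `P_i` and the constants, up to powers,
then there is a homomorphism to `ℤ` which is trivial on the latter and not on the former, and `P` can be
deformed to a point `P(t)` over `K(t)` with `P(1) = P`: the linear relations with the `P_i` are bordered
determinants, that is vanishing sums of elements of `G`, and remain valid, so `P(t)` lies on `X_m`. As `P` does not
lie on a rational curve, `P(t)` is constant, and `P` has a representation with fewer terms. It follows that the
points are given by countably many sequences, which contradicts the fact that `X_m` has more than `m` of them.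
-/

set_option autoImplicit false

namespace Pool.Agent.Results.MP_10e784_ag.UniformSparsePoints

open Pool.Agent.D0H59.UB

theorem result (K : Type) [Field K] [CharZero K] (G : Subgroup Kˣ) (hG : G.FG) (N : ℕ) :
    (∀ n d : ℕ, ∃ B : ℕ, ∀ FF : Set (MvPolynomial (Fin (n + 1)) K),
      (∀ F ∈ FF, ∃ e ≤ d, F.IsHomogeneous e) → (sparsePoints FF G N).encard ≤ B) ∧
    (∀ d : ℕ, 3 ≤ d → ∃ B : ℕ, ∀ f : Polynomial K, f.Separable → f.natDegree = d →
      {Q : K × K | Q.2 ^ 2 = f.eval Q.1 ∧ ∃ a b c : K, c ≠ 0 ∧ IsSum G N a ∧ IsSum G N b ∧
        IsSum G N c ∧ Q.1 = a / c ∧ Q.2 = b / c}.encard ≤ B) :=
  ⟨fun n d => bounded' K G hG n d N, fun d hd => hyper K G hG N d hd⟩

end Pool.Agent.Results.MP_10e784_ag.UniformSparsePoints
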